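import Pool.Agent.N963.KL.Stm
import Pool.Agent.N252.GN.B
import Pool.Agent.N134.GN.C2

/-!
# Project KL, task LPS: functions of the Laguerre-Polya class on the imaginary axis
-/

set_option autoImplicit false

namespace Pool.Agent.N711.KL

open Complex Filter Topology Polynomial
open scoped ComplexConjugate
open Pool.Agent.N963.GN (LPc)
open Pool.Agent.N963.KL

lemma eval_map' (P : ℝ[X]) (w : ℂ) : (P.map (algebraMap ℝ ℂ)).eval w = aeval w P := by
  rw [aeval_def, eval_map]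

lemma diff_poly (P : ℝ[X]) : Differentiable ℂ (fun w : ℂ => aeval w P) := by
  have h : (fun w : ℂ => aeval w P) = fun w : ℂ => (P.map (algebraMap ℝ ℂ)).eval w :=
    funext fun w => (eval_map' P w).symm
  rw [h]
  exact Polynomial.differentiable _

lemma lpc_diff {φ : ℂ → ℂ} (h : LPc φ) : Differentiable ℂ φ := by
  obtain ⟨-, Q, -, hT⟩ := h
  have h1 := (tendstoLocallyUniformlyOn_univ.2 hT).differentiableOn
    (Eventually.of_forall fun N => (diff_poly (Q N)).differentiableOn) isOpen_univ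
  exact differentiableOn_univ.1 h1

lemma lpc_rr {φ : ℂ → ℂ} (h : LPc φ) : Pool.Agent.N963.GN.RR φ := by
  refine ⟨lpc_diff h, h.1, ?_⟩
  obtain ⟨-, Q, hQ, hT⟩ := h
  refine ⟨fun N => (Q N).map (algebraMap ℝ ℂ), fun N w hw => hQ N w ?_, ?_⟩
  · rw [← eval_map']
    exact hw
  · refine hT.congr fun N => ?_
    intro w
    exact (eval_map' (Q N) w).symm

lemma lpc_tend {φ : ℂ → ℂ} {Q : ℕ → ℝ[X]}
    (hT : TendstoLocallyUniformly (fun (N : ℕ) (w : ℂ) => aeval w (Q N)) φ atTop) (z : ℂ) :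
    Tendsto (fun N => aeval z (Q N)) atTop (𝓝 (φ z)) :=
  (tendstoLocallyUniformlyOn_univ.2 hT).tendsto_at (Set.mem_univ z)

lemma lpc_conj {φ : ℂ → ℂ} (h : LPc φ) (z : ℂ) : φ (conj z) = conj (φ z) := by
  obtain ⟨-, Q, -, hT⟩ := h
  have h1 := lpc_tend hT (conj z)
  have h2 := (Complex.continuous_conj.tendsto (φ z)).comp (lpc_tend hT z)
  refine tendsto_nhds_unique h1 (h2.congr fun N => ?_)
  simp only [Function.comp_apply]
  exact (Polynomial.aeval_conj (Q N) z).symm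

lemma lpc_bd {φ : ℂ → ℂ} (h : LPc φ) :
    ∃ M : ℝ, 0 ≤ M ∧ ∀ s : ℂ, ‖φ s‖ ≤ M * Real.exp (M * ‖s‖ ^ 2) := by
  obtain ⟨h0, Q, hQ, hT⟩ := h
  obtain ⟨M, hM, N0, hb⟩ := Pool.Agent.N134.GN.c2 φ Q h0 hQ hT
  refine ⟨M, hM, fun s => ?_⟩
  refine le_of_tendsto (lpc_tend hT s).norm ?_
  filter_upwards [eventually_ge_atTop N0] with N hN
  exact hb N hN s

theorem lps : S_LPS := by
  intro φ κ hφ hg
  have hd := lpc_diff hφ
  have hrr := lpc_rr hφ
  have him : ∀ w : ℂ, (I * w).im = w.re := fun w => by simp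
  have hlog : logDeriv (fun w => φ (I * w)) = fun w => I * logDeriv φ (I * w) := by
    funext w
    rw [logDeriv_apply, logDeriv_apply, deriv_comp_mul_left, smul_eq_mul, mul_div_assoc]
  have hlog2 : ∀ w : ℂ, deriv (logDeriv (fun w => φ (I * w))) w =
      -(deriv (logDeriv φ) (I * w)) := by
    intro w
    rw [hlog, deriv_const_mul_field, deriv_comp_mul_left, smul_eq_mul, ← mul_assoc, I_mul_I]
    ring
  have hb1 : ∀ w : ℂ, 0 < w.re → φ (I * w) ≠ 0 ∧ 0 ≤ -(logDeriv φ (I * w)).im ∧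
      ‖deriv (logDeriv φ) (I * w)‖ * w.re ≤ -(logDeriv φ (I * w)).im := by
    intro w hw
    have := Pool.Agent.N252.GN.b1 φ hrr (I * w) (by rw [him]; exact hw)
    rw [him] at this
    exact this
  have hre : ∀ w : ℂ, (logDeriv (fun w => φ (I * w)) w).re = -(logDeriv φ (I * w)).im := by
    intro w
    rw [hlog]
    simp
  refine ⟨hd.comp (by fun_prop), fun w hw => (hb1 w hw).1, fun w hw => ?_, fun w hw => ?_,
    fun w => ?_, ?_, ?_⟩
  · rw [hre]
    exact (hb1 w hw).2.1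
  · rw [hre, hlog2, norm_neg]
    exact (hb1 w hw).2.2
  · show φ (I * -conj w) = conj (φ (I * w))
    rw [← lpc_conj hφ]
    congr 1
    simp
  · obtain ⟨M, hM, hb⟩ := lpc_bd hφ
    refine ⟨M, hM, fun w => ?_⟩
    have h1 := hb (I * w)
    rw [norm_mul, norm_I, one_mul] at h1
    exact h1
  · obtain ⟨L0, hL⟩ := hg
    refine ⟨max L0 1, lt_of_lt_of_le one_pos (le_max_right _ _), fun a b ha hab => ?_⟩
    exact hL a b ((le_max_left _ _).trans ha) hab

end Pool.Agent.N711.KL
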